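import Pool.Agent.K3h83.IN.Stm3
import Pool.Agent.H254R3.IN.Chars

/-!
# Representations of groups of symplectic type (T7 and T6)
-/

set_option autoImplicit false

open scoped BigOperators Classical

noncomputable section

namespace Pool.Agent.K3h92.IN

open Pool.Agent.Helper884 Pool.Agent.K3h83.IN Representation
open Pool.Agent.H254R3.IN (schur irr_nontrivial)

variable {G : Type} [Group G]

/-- central elements act by scalars -/
theorem scal {V : Type} [AddCommGroup V] [Module ℂ V] [FiniteDimensional ℂ V]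
    (ρ : Representation ℂ G V) (hr : ρ.IsIrreducible) {z : G} (hz : z ∈ Subgroup.center G) :
    ∃ c : ℂ, ρ z = c • LinearMap.id := by
  refine schur ρ hr (ρ z) fun h v => ?_
  rw [← Module.End.mul_apply, ← Module.End.mul_apply, ← map_mul, ← map_mul,
    (Subgroup.mem_center_iff.mp hz h)]

/-- the character vanishes outside the center -/
theorem char_off {V : Type} [AddCommGroup V] [Module ℂ V] [FiniteDimensional ℂ V]
    (ρ : Representation ℂ G V) (hr : ρ.IsIrreducible)
    (hf : ∀ z ∈ Subgroup.center G, ρ z = 1 → z = 1)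
    (hc : ∀ a b : G, a * b * a⁻¹ * b⁻¹ ∈ Subgroup.center G) {m : G}
    (hm : m ∉ Subgroup.center G) : ρ.character m = 0 := by
  rw [Subgroup.mem_center_iff] at hm
  push Not at hm
  obtain ⟨n, hn⟩ := hm
  obtain ⟨c, hcc⟩ := scal ρ hr (hc n m)
  have h1 : n * m * n⁻¹ * m⁻¹ ≠ 1 := by
    intro h
    apply hn
    have : n * m * n⁻¹ * m⁻¹ * m * n = 1 * m * n := by rw [h]
    simpa [mul_assoc] using this
  have h2 : c ≠ 1 := by
    intro h
    apply h1
    apply hf _ (hc n m)
    rw [hcc, h, one_smul]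
    rfl
  have h3 : ρ.character (n * m * n⁻¹) = ρ.character m := ρ.char_conj m n
  have h4 : n * m * n⁻¹ = (n * m * n⁻¹ * m⁻¹) * m := by group
  have h5 : ρ.character (n * m * n⁻¹) = c * ρ.character m := by
    rw [h4]
    unfold Representation.character
    rw [map_mul, hcc]
    have : (c • (LinearMap.id : V →ₗ[ℂ] V)) * ρ m = c • ρ m := by
      ext v
      simp
    rw [this, map_smul, smul_eq_mul]
  rw [h3] at h5
  have h6 : (c - 1) * ρ.character m = 0 := by
    rw [sub_mul, one_mul, ← h5, sub_self]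
  rcases mul_eq_zero.mp h6 with h | h
  · exact absurd (sub_eq_zero.mp h) h2
  · exact h

theorem t_T7 : T7 := by
  intro q _ M _ _ hS V V' _ _ _ _ _ _ σ σ' h1 h2 hf hz
  have := Fintype.ofFinite M
  have : Invertible (Nat.card M : ℂ) := invertibleOfNonzero (by exact_mod_cast Nat.card_pos.ne')
  have := irr_nontrivial σ h1
  have := irr_nontrivial σ' h2
  have hf' : ∀ z ∈ Subgroup.center M, σ' z = 1 → z = 1 := by
    intro z hzz h
    obtain ⟨c, hc1, hc2⟩ := hz z hzz
    apply hf z hzz
    obtain ⟨v, hv⟩ := exists_ne (0 : V')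
    have h3 := hc2 v
    rw [h] at h3
    have h4 : (c - 1) • v = 0 := by
      rw [sub_smul, one_smul, ← h3]
      simp
    rcases smul_eq_zero.mp h4 with h5 | h5
    · ext w
      rw [hc1 w, sub_eq_zero.mp h5]
      simp
    · exact absurd h5 hv
  have hsum : ∑ g : M, σ'.character g * σ.character g⁻¹ =
      ∑ g ∈ Finset.univ.filter (fun g : M => g ∈ Subgroup.center M),
        (Module.finrank ℂ V' : ℂ) * (Module.finrank ℂ V : ℂ) := by
    rw [Finset.sum_filter]
    refine Finset.sum_congr rfl fun g _ => ?_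
    split_ifs with hg
    · obtain ⟨c, hc1, hc2⟩ := hz g hg
      have e1 : σ' g = c • LinearMap.id := by
        ext v
        simp [hc2 v]
      have e2 : σ g = c • LinearMap.id := by
        ext v
        simp [hc1 v]
      have hc0 : c ≠ 0 := by
        rintro rfl
        obtain ⟨v, hv⟩ := exists_ne (0 : V)
        have h3 := hc1 v
        rw [zero_smul] at h3
        have h4 : σ g⁻¹ (σ g v) = v := by
          rw [← Module.End.mul_apply, ← map_mul, inv_mul_cancel, map_one, Module.End.one_apply]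
        rw [h3, map_zero] at h4
        exact hv h4.symm
      have e3 : σ g⁻¹ = c⁻¹ • LinearMap.id := by
        ext v
        have h4 : σ g⁻¹ (σ g v) = v := by
          rw [← Module.End.mul_apply, ← map_mul, inv_mul_cancel, map_one, Module.End.one_apply]
        rw [hc1, map_smul] at h4
        have h5 : σ g⁻¹ v = c⁻¹ • (c • σ g⁻¹ v) := by
          rw [smul_smul, inv_mul_cancel₀ hc0, one_smul]
        rw [h5, h4]
        simp
      unfold Representation.character
      rw [e1, e3, map_smul, map_smul, LinearMap.trace_id, LinearMap.trace_id, smul_eq_mul,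
        smul_eq_mul]
      field_simp
    · rw [char_off σ' h2 hf' hS.com hg, zero_mul]
  have hne : (Nat.card M : ℂ)⁻¹ * ∑ g : M, σ'.character g * σ.character g⁻¹ ≠ 0 := by
    rw [hsum, Finset.sum_const, nsmul_eq_mul]
    have hpos : 0 < (Finset.univ.filter (fun g : M => g ∈ Subgroup.center M)).card :=
      Finset.card_pos.mpr ⟨1, by simp⟩
    have a1 : (Nat.card M : ℂ)⁻¹ ≠ 0 := inv_ne_zero (by exact_mod_cast Nat.card_pos.ne')
    have a2 : (Module.finrank ℂ V' : ℂ) ≠ 0 := by exact_mod_cast Module.finrank_pos.ne'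
    have a3 : (Module.finrank ℂ V : ℂ) ≠ 0 := by exact_mod_cast Module.finrank_pos.ne'
    exact mul_ne_zero a1 (mul_ne_zero (by exact_mod_cast hpos.ne') (mul_ne_zero a2 a3))
  have : σ.IsIrreducible := h1
  have : σ'.IsIrreducible := h2
  rw [char_orthonormal σ' σ] at hne
  split_ifs at hne with hE
  · obtain ⟨e⟩ := hE
    exact ⟨e.toLinearEquiv, fun m v => IntertwiningMap.isIntertwining σ σ' e.toIntertwiningMap m v⟩
  · exact absurd rfl hne

/-- an irreducible subrepresentation -/
theorem exists_irr {V : Type} [AddCommGroup V] [Module ℂ V] [FiniteDimensional ℂ V] [Nontrivial V]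
    (ρ : Representation ℂ G V) : ∃ W : Subrepresentation ρ, W.toRepresentation.IsIrreducible := by
  obtain ⟨U, ⟨hU2, hU3⟩, hmin⟩ := (wellFounded_lt (α := Submodule ℂ V)).has_min
    {U | (∀ g : G, ∀ v ∈ U, ρ g v ∈ U) ∧ U ≠ ⊥} ⟨⊤, fun _ _ _ => trivial, by
      intro h
      obtain ⟨v, hv⟩ := exists_ne (0 : V)
      have : v ∈ (⊥ : Submodule ℂ V) := by rw [← h]; trivial
      exact hv ((Submodule.mem_bot ℂ).mp this)⟩
  let W : Subrepresentation ρ := ⟨U, fun g v hv => hU2 g v hv⟩
  refine ⟨W, ?_⟩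
  have hnt : Nontrivial (Subrepresentation W.toRepresentation) := by
    refine ⟨⊥, ⊤, fun h => hU3 ?_⟩
    have h1 : (⊥ : Submodule ℂ U) = ⊤ := congrArg Subrepresentation.toSubmodule h
    rw [eq_bot_iff]
    intro v hv
    have h2 : (⟨v, hv⟩ : U) ∈ (⊥ : Submodule ℂ U) := by rw [h1]; trivial
    rw [Submodule.mem_bot] at h2
    rw [Submodule.mem_bot]
    exact congrArg Subtype.val h2
  refine { toNontrivial := hnt, eq_bot_or_eq_top := fun S => ?_ }
  let S' : Submodule ℂ V := S.toSubmodule.map U.subtype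
  have hS' : S' ≤ U := by
    rintro _ ⟨x, _, rfl⟩
    exact x.2
  by_cases hb : S' = ⊥
  · left
    apply Subrepresentation.toSubmodule_injective
    change S.toSubmodule = ⊥
    rw [eq_bot_iff]
    intro x hx
    have h1 : (x : V) ∈ S' := ⟨x, hx, rfl⟩
    rw [hb, Submodule.mem_bot] at h1
    rw [Submodule.mem_bot]
    exact Subtype.ext h1
  · right
    apply Subrepresentation.toSubmodule_injective
    change S.toSubmodule = ⊤
    have h1 : ¬ (S' < U) := hmin S' ⟨fun g v hv => by
      obtain ⟨x, hx, rfl⟩ := hv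
      exact ⟨W.toRepresentation g x, S.apply_mem_toSubmodule g hx, rfl⟩, hb⟩
    have h2 : S' = U := by
      by_contra hne
      exact h1 (lt_of_le_of_ne hS' hne)
    rw [eq_top_iff]
    intro x _
    have h3 : (x : V) ∈ S' := by rw [h2]; exact x.2
    obtain ⟨y, hy, hyx⟩ := h3
    have : y = x := Subtype.ext hyx
    rw [← this]
    exact hy

/-- Schur: the average of a conjugated operator is a scalar -/
theorem avg {V : Type} [AddCommGroup V] [Module ℂ V] [FiniteDimensional ℂ V] [Fintype G]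
    (ρ : Representation ℂ G V) (hr : ρ.IsIrreducible) (f : V →ₗ[ℂ] V) :
    ∑ g : G, ρ g * f * ρ g⁻¹ =
      ((Fintype.card G : ℂ) * LinearMap.trace ℂ V f / (Module.finrank ℂ V : ℂ)) •
        (LinearMap.id : V →ₗ[ℂ] V) := by
  have := irr_nontrivial ρ hr
  obtain ⟨c, hc⟩ := schur ρ hr (∑ g : G, ρ g * f * ρ g⁻¹) (by
    intro h v
    simp only [LinearMap.sum_apply, map_sum]
    refine Fintype.sum_equiv (Equiv.mulLeft h⁻¹) _ _ fun g => ?_
    rw [← Module.End.mul_apply, ← Module.End.mul_apply, Equiv.coe_mulLeft]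
    congr 1
    have e1 : ρ (h⁻¹ * g) = ρ h⁻¹ * ρ g := map_mul _ _ _
    have e2 : ρ (h⁻¹ * g)⁻¹ = ρ g⁻¹ * ρ h := by rw [← map_mul]; congr 1; group
    have e3 : ρ h * ρ h⁻¹ = 1 := by rw [← map_mul, mul_inv_cancel, map_one]
    rw [e1, e2]
    calc ρ g * f * ρ g⁻¹ * ρ h = 1 * (ρ g * f * ρ g⁻¹ * ρ h) := (one_mul _).symm
      _ = (ρ h * ρ h⁻¹) * (ρ g * f * ρ g⁻¹ * ρ h) := by rw [e3]
      _ = ρ h * (ρ h⁻¹ * ρ g * f * (ρ g⁻¹ * ρ h)) := by simp only [mul_assoc])
  have htr : LinearMap.trace ℂ V (∑ g : G, ρ g * f * ρ g⁻¹) =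
      (Fintype.card G : ℂ) * LinearMap.trace ℂ V f := by
    rw [map_sum]
    have : ∀ g : G, LinearMap.trace ℂ V (ρ g * f * ρ g⁻¹) = LinearMap.trace ℂ V f := by
      intro g
      rw [LinearMap.trace_mul_comm, ← mul_assoc, ← map_mul, inv_mul_cancel, map_one, one_mul]
    simp [this]
  have hd : (Module.finrank ℂ V : ℂ) ≠ 0 := by exact_mod_cast Module.finrank_pos.ne'
  rw [hc, map_smul, LinearMap.trace_id, smul_eq_mul] at htr
  rw [hc, ← htr, mul_div_cancel_right₀ _ hd]

/-- Burnside: the operators of an irreducible representation span -/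
theorem span_irr {V : Type} [AddCommGroup V] [Module ℂ V] [FiniteDimensional ℂ V] [Finite G]
    (ρ : Representation ℂ G V) (hr : ρ.IsIrreducible) (b : V →ₗ[ℂ] V) :
    b ∈ Submodule.span ℂ (Set.range ρ) := by
  have := Fintype.ofFinite G
  have := irr_nontrivial ρ hr
  let B := Module.finBasis ℂ V
  have hd : (Module.finrank ℂ V : ℂ) ≠ 0 := by exact_mod_cast Module.finrank_pos.ne'
  have hG : (Fintype.card G : ℂ) ≠ 0 := by exact_mod_cast Fintype.card_ne_zero
  set k : ℂ := (Fintype.card G : ℂ) / (Module.finrank ℂ V : ℂ) with hk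
  have hk0 : k ≠ 0 := div_ne_zero hG hd
  have key : k • b = ∑ g : G, (∑ i, B.coord i (b (ρ g⁻¹ (B i)))) • ρ g := by
    ext v
    simp only [LinearMap.smul_apply, LinearMap.sum_apply]
    have h1 : ∀ i, ∑ g : G, (B.coord i (b (ρ g⁻¹ (B i)))) • ρ g v = (k * B.coord i (b v)) • B i := by
      intro i
      have h2 := avg ρ hr (((B.coord i).comp b).smulRight v)
      have h3 := congrArg (fun S : V →ₗ[ℂ] V => S (B i)) h2
      simp only [LinearMap.sum_apply, LinearMap.smul_apply, LinearMap.id_apply,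
        Module.End.mul_apply, LinearMap.smulRight_apply, LinearMap.comp_apply, map_smul,
        LinearMap.trace_smulRight] at h3
      rw [h3]
      congr 1
      rw [hk]
      ring
    have h4 : b v = ∑ i, B.coord i (b v) • B i := by
      simp [Module.Basis.coord_apply, B.sum_repr]
    calc k • b v = ∑ i, (k * B.coord i (b v)) • B i := by
          conv_lhs => rw [h4]
          rw [Finset.smul_sum]
          refine Finset.sum_congr rfl fun i _ => ?_
          rw [smul_smul]
      _ = ∑ i, ∑ g : G, (B.coord i (b (ρ g⁻¹ (B i)))) • ρ g v :=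
          Finset.sum_congr rfl fun i _ => (h1 i).symm
      _ = ∑ g : G, ∑ i, (B.coord i (b (ρ g⁻¹ (B i)))) • ρ g v := Finset.sum_comm
      _ = _ := by
          refine Finset.sum_congr rfl fun g _ => ?_
          rw [Finset.sum_smul]
  have h5 : b = k⁻¹ • ∑ g : G, (∑ i, B.coord i (b (ρ g⁻¹ (B i)))) • ρ g := by
    rw [← key, smul_smul, inv_mul_cancel₀ hk0, one_smul]
  rw [h5]
  refine Submodule.smul_mem _ _ (Submodule.sum_mem _ fun g _ => Submodule.smul_mem _ _
    (Submodule.subset_span ⟨g, rfl⟩))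

/-- a combination of the operators of an irreducible representation is zero iff the coefficients
vanish on the average -/
theorem coeff_zero {V : Type} [AddCommGroup V] [Module ℂ V] [FiniteDimensional ℂ V] [Fintype G]
    (ρ : Representation ℂ G V) (hr : ρ.IsIrreducible)
    (hf : ∀ z ∈ Subgroup.center G, ρ z = 1 → z = 1)
    (hc : ∀ a b : G, a * b * a⁻¹ * b⁻¹ ∈ Subgroup.center G) (c : Subgroup.center G → ℂ)
    (hcz : ∀ z : Subgroup.center G, ρ z = c z • LinearMap.id) (a : G → ℂ)
    (h0 : ∑ m : G, a m • ρ m = 0) (n : G) :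
    ∑ z : Subgroup.center G, a (z * n) * c z = 0 := by
  have := irr_nontrivial ρ hr
  have hd : (Module.finrank ℂ V : ℂ) ≠ 0 := by exact_mod_cast Module.finrank_pos.ne'
  have h1 : ∑ m : G, a (m * n) * ρ.character m = 0 := by
    have h2 : ∑ m : G, a (m * n) • ρ m = 0 := by
      have h3 : ∑ m : G, a (m * n) • ρ m = (∑ m : G, a m • ρ m) * ρ n⁻¹ := by
        rw [Finset.sum_mul]
        refine Fintype.sum_equiv (Equiv.mulRight n) _ _ fun m => ?_
        rw [Equiv.coe_mulRight, smul_mul_assoc, ← map_mul, mul_inv_cancel_right]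
      rw [h3, h0, zero_mul]
    have h4 := congrArg (LinearMap.trace ℂ V) h2
    rw [map_sum, map_zero] at h4
    rw [← h4]
    refine Finset.sum_congr rfl fun m _ => ?_
    rw [map_smul, smul_eq_mul]
    rfl
  have h5 : ∑ m : G, a (m * n) * ρ.character m =
      ∑ z : Subgroup.center G, a (z * n) * ρ.character z := by
    have h6 : ∑ m : G, a (m * n) * ρ.character m =
        ∑ m ∈ Finset.univ.filter (fun m : G => m ∈ Subgroup.center G),
          a (m * n) * ρ.character m := by
      rw [Finset.sum_filter]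
      refine Finset.sum_congr rfl fun m _ => ?_
      split_ifs with hm
      · rfl
      · rw [char_off ρ hr hf hc hm, mul_zero]
    rw [h6]
    refine Finset.sum_subtype _ (fun m => by simp) _
  rw [h5] at h1
  have h7 : ∀ z : Subgroup.center G, ρ.character z = c z * (Module.finrank ℂ V : ℂ) := by
    intro z
    unfold Representation.character
    rw [hcz z, map_smul, LinearMap.trace_id, smul_eq_mul]
  have h8 : (∑ z : Subgroup.center G, a (z * n) * c z) * (Module.finrank ℂ V : ℂ) = 0 := by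
    rw [Finset.sum_mul, ← h1]
    refine Finset.sum_congr rfl fun z _ => ?_
    rw [h7 z, mul_assoc]
  exact (mul_eq_zero.mp h8).resolve_right hd

/-- a combination with vanishing averages acts as zero -/
theorem act_zero {V : Type} [AddCommGroup V] [Module ℂ V] [Fintype G]
    (τ : Representation ℂ G V) (c : Subgroup.center G → ℂ)
    (hcz : ∀ z : Subgroup.center G, τ z = c z • LinearMap.id) (a : G → ℂ)
    (h0 : ∀ n : G, ∑ z : Subgroup.center G, a (z * n) * c z = 0) :
    ∑ m : G, a m • τ m = 0 := by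
  have h1 : (Fintype.card (Subgroup.center G) : ℂ) • ∑ m : G, a m • τ m = 0 := by
    have h2 : ∀ z : Subgroup.center G, ∑ m : G, a m • τ m = ∑ n : G, a (z * n) • τ (z * n) :=
      fun z => (Fintype.sum_equiv (Equiv.mulLeft (z : G)) _ _ fun n => rfl).symm
    have h3 : (Fintype.card (Subgroup.center G) : ℂ) • ∑ m : G, a m • τ m =
        ∑ z : Subgroup.center G, ∑ n : G, a (z * n) • τ (z * n) := by
      rw [← Finset.sum_congr rfl fun z _ => h2 z, Finset.sum_const, Finset.card_univ,
        ← Nat.cast_smul_eq_nsmul ℂ]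
    rw [h3, Finset.sum_comm]
    refine Finset.sum_eq_zero fun n _ => ?_
    have h4 : ∀ z : Subgroup.center G, a (z * n) • τ (z * n) = (a (z * n) * c z) • τ n := by
      intro z
      rw [map_mul, hcz z, mul_smul]
      congr 1
    rw [Finset.sum_congr rfl fun z _ => h4 z, ← Finset.sum_smul, h0 n, zero_smul]
  have h5 : (Fintype.card (Subgroup.center G) : ℂ) ≠ 0 := by exact_mod_cast Fintype.card_ne_zero
  exact (smul_eq_zero.mp h1).resolve_left h5

theorem t_T6 : T6 := by
  intro q _ M _ _ hS M₀ hN V _ _ _ σ hσ hf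
  have := irr_nontrivial σ hσ
  have := Fintype.ofFinite M₀
  let τ : Representation ℂ M₀ V := σ.comp M₀.subtype
  obtain ⟨W, hW⟩ := exists_irr τ
  have hcen : ∀ z : M₀, z ∈ Subgroup.center M₀ → (z : M) ∈ Subgroup.center M := by
    intro z hz
    refine hN.nd z z.2 fun n hn => ?_
    have := Subgroup.mem_center_iff.mp hz ⟨n, hn⟩
    exact (congrArg Subtype.val this).symm
  have hcen' : ∀ z : M₀, (z : M) ∈ Subgroup.center M → z ∈ Subgroup.center M₀ := by
    intro z hz
    rw [Subgroup.mem_center_iff]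
    intro n
    exact Subtype.ext (Subgroup.mem_center_iff.mp hz n)
  choose! c hc using fun (z : Subgroup.center M₀) => scal σ hσ (hcen z z.2)
  have hcτ : ∀ z : Subgroup.center M₀, τ z = c z • LinearMap.id := hc
  let σ₀ : Representation ℂ M₀ W.toSubmodule := W.toRepresentation
  have hσ₀ : σ₀.IsIrreducible := hW
  have hco : ∀ (m : M₀) (v : W.toSubmodule), ((σ₀ m v : W.toSubmodule) : V) = σ m v :=
    fun m v => rfl
  have hc₀ : ∀ z : Subgroup.center M₀, σ₀ z = c z • LinearMap.id := by
    intro z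
    ext v
    rw [hco, hc z]
    rfl
  have hf₀ : ∀ z ∈ Subgroup.center M₀, σ₀ z = 1 → z = 1 := by
    intro z hz h
    have h1 := hc₀ ⟨z, hz⟩
    have := irr_nontrivial σ₀ hσ₀
    obtain ⟨v, hv⟩ := exists_ne (0 : W.toSubmodule)
    have h2 : (c ⟨z, hz⟩ - 1) • v = 0 := by
      have h3 := congrArg (fun S : W.toSubmodule →ₗ[ℂ] W.toSubmodule => S v) h1
      simp only [LinearMap.smul_apply, LinearMap.id_apply] at h3
      rw [sub_smul, one_smul, ← h3, h]
      simp
    rcases smul_eq_zero.mp h2 with h5 | h5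
    · apply Subtype.ext
      refine hf z (hcen z hz) ?_
      have h6 := hc ⟨z, hz⟩
      rw [sub_eq_zero.mp h5, one_smul] at h6
      exact h6
    · exact absurd h5 hv
  have hcom : ∀ a b : M₀, a * b * a⁻¹ * b⁻¹ ∈ Subgroup.center M₀ := fun a b =>
    hcen' _ (hS.com a b)
  -- the algebra homomorphisms from the group algebra
  let A₀ : MonoidAlgebra ℂ M₀ →ₐ[ℂ] (W.toSubmodule →ₗ[ℂ] W.toSubmodule) := MonoidAlgebra.lift ℂ _ _ σ₀
  let A : MonoidAlgebra ℂ M₀ →ₐ[ℂ] (V →ₗ[ℂ] V) := MonoidAlgebra.lift ℂ _ _ τ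
  have hker : ∀ x, A₀ x = 0 → A x = 0 := by
    intro x hx
    have e1 : A₀ x = ∑ m : M₀, x.coeff m • σ₀ m := by
      simp only [A₀]
      rw [MonoidAlgebra.lift_apply]
      exact Finsupp.sum_fintype _ _ (by simp)
    have e2 : A x = ∑ m : M₀, x.coeff m • τ m := by
      simp only [A]
      rw [MonoidAlgebra.lift_apply]
      exact Finsupp.sum_fintype _ _ (by simp)
    rw [e2]
    refine act_zero τ c hcτ _ fun n => ?_
    exact coeff_zero σ₀ hσ₀ hf₀ hcom c hc₀ _ (by rw [← e1, hx]) n
  have hsurj : Function.Surjective A₀ := by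
    intro b
    have hb := span_irr σ₀ hσ₀ b
    have hle : Submodule.span ℂ (Set.range σ₀) ≤ LinearMap.range A₀.toLinearMap := by
      rw [Submodule.span_le]
      rintro _ ⟨m, rfl⟩
      refine ⟨MonoidAlgebra.of ℂ M₀ m, ?_⟩
      simp [A₀]
    obtain ⟨x, hx⟩ := hle hb
    exact ⟨x, hx⟩
  have hlift : ∀ x y, A₀ x = A₀ y → A x = A y := by
    intro x y h
    have h1 := hker (x - y) (by rw [map_sub, h, sub_self])
    rwa [map_sub, sub_eq_zero] at h1
  let F : (W.toSubmodule →ₗ[ℂ] W.toSubmodule) → (V →ₗ[ℂ] V) := fun b => A (Function.surjInv hsurj b)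
  have hF : ∀ x, F (A₀ x) = A x := fun x => hlift _ _ (Function.surjInv_eq hsurj _)
  let Φ : (W.toSubmodule →ₗ[ℂ] W.toSubmodule) →ₐ[ℂ] (V →ₗ[ℂ] V) :=
    { toFun := F
      map_one' := by rw [← map_one A₀, hF, map_one]
      map_zero' := by rw [← map_zero A₀, hF, map_zero]
      map_mul' := fun a b => by
        obtain ⟨x, rfl⟩ := hsurj a
        obtain ⟨y, rfl⟩ := hsurj b
        rw [← map_mul, hF, hF, hF, map_mul]
      map_add' := fun a b => by
        obtain ⟨x, rfl⟩ := hsurj a
        obtain ⟨y, rfl⟩ := hsurj b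
        rw [← map_add, hF, hF, hF, map_add]
      commutes' := fun r => by
        rw [← A₀.commutes, hF, A.commutes] }
  refine ⟨W.toSubmodule, inferInstance, inferInstance, inferInstance, σ₀, Φ, hσ₀, hf₀, ?_,
    span_irr σ₀ hσ₀⟩
  intro m
  have e1 : σ₀ m = A₀ (MonoidAlgebra.of ℂ M₀ m) := by simp [A₀]
  have e2 : σ m = A (MonoidAlgebra.of ℂ M₀ m) := by simp [A, τ]
  rw [e1, e2]
  exact hF _

end Pool.Agent.K3h92.IN
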